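import Mathlib

set_option autoImplicit false

/-!
# The numerators of the Bernoulli numbers up to a bound have few prime factors
-/

namespace Pool.Agent.H563.RI

open Finset

lemma b_bound (n : ℕ) : |bernoulli' n| ≤ (2 : ℚ) ^ (n ^ 2) := by
  induction n using Nat.strong_induction_on with
  | _ n ih =>
    rcases Nat.eq_zero_or_pos n with hn | hn
    · subst hn
      simp
    · rw [bernoulli'_def]
      have h1 : ∀ k ∈ range n, |((n.choose k : ℚ)) / ((n : ℚ) - k + 1) * bernoulli' k| ≤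
          (n.choose k : ℚ) * 2 ^ ((n - 1) ^ 2) := by
        intro k hk
        rw [mem_range] at hk
        have hkr : (1 : ℚ) ≤ (n : ℚ) - k + 1 := by
          have : (k : ℚ) ≤ n := by exact_mod_cast hk.le
          linarith
        rw [abs_mul, abs_div, abs_of_nonneg (show (0 : ℚ) ≤ (n.choose k : ℚ) by positivity),
          abs_of_nonneg (show (0 : ℚ) ≤ (n : ℚ) - k + 1 by linarith)]
        have h2 : (n.choose k : ℚ) / ((n : ℚ) - k + 1) ≤ n.choose k :=
          div_le_self (by positivity) hkr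
        have h3 : |bernoulli' k| ≤ (2 : ℚ) ^ ((n - 1) ^ 2) :=
          (ih k hk).trans (pow_le_pow_right₀ (by norm_num) (Nat.pow_le_pow_left (by omega) 2))
        exact mul_le_mul h2 h3 (abs_nonneg _) (by positivity)
      have h2 : |∑ k ∈ range n, (n.choose k : ℚ) / ((n : ℚ) - k + 1) * bernoulli' k| ≤
          (2 ^ n - 1) * 2 ^ ((n - 1) ^ 2) := by
        refine (abs_sum_le_sum_abs _ _).trans ((sum_le_sum h1).trans ?_)
        rw [← sum_mul]
        have h3 : ∑ k ∈ range n, (n.choose k : ℚ) = 2 ^ n - 1 := by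
          have h4 := Nat.sum_range_choose n
          rw [sum_range_succ, Nat.choose_self] at h4
          have h5 : ((∑ k ∈ range n, n.choose k + 1 : ℕ) : ℚ) = ((2 ^ n : ℕ) : ℚ) := by rw [h4]
          push_cast at h5
          linarith
        rw [h3]
      have h3 : (1 : ℚ) ≤ 2 ^ ((n - 1) ^ 2) := one_le_pow₀ (by norm_num)
      have h4 : (2 : ℚ) ^ n * 2 ^ ((n - 1) ^ 2) ≤ 2 ^ (n ^ 2) := by
        rw [← pow_add]
        apply pow_le_pow_right₀ (by norm_num)
        obtain ⟨m, rfl⟩ : ∃ m, n = m + 1 := ⟨n - 1, by omega⟩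
        rw [Nat.add_sub_cancel]
        nlinarith
      calc |1 - ∑ k ∈ range n, (n.choose k : ℚ) / ((n : ℚ) - k + 1) * bernoulli' k| ≤
          |(1 : ℚ)| + |∑ k ∈ range n, (n.choose k : ℚ) / ((n : ℚ) - k + 1) * bernoulli' k| := abs_sub _ _
        _ ≤ 1 + (2 ^ n - 1) * 2 ^ ((n - 1) ^ 2) := by
            rw [abs_one]
            linarith
        _ ≤ 2 ^ (n ^ 2) := by linarith

lemma b_int (n : ℕ) : ∃ z : ℤ, (((n + 1).factorial : ℕ) : ℚ) * bernoulli' n = z := by
  induction n using Nat.strong_induction_on with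
  | _ n ih =>
    have h := sum_bernoulli' (n + 1)
    rw [sum_range_succ, Nat.choose_succ_self_right] at h
    have h1 : ∀ k, ∃ z : ℤ, k ∈ range n → ((n.factorial : ℕ) : ℚ) * bernoulli' k = z := by
      intro k
      by_cases hk : k < n
      · obtain ⟨z, hz⟩ := ih k hk
        obtain ⟨m, hm⟩ := Nat.factorial_dvd_factorial (show k + 1 ≤ n by omega)
        refine ⟨m * z, fun _ => ?_⟩
        rw [hm]
        push_cast
        rw [← hz]
        push_cast
        ring
      · exact ⟨0, fun h => absurd (mem_range.1 h) hk⟩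
    choose z hz using h1
    refine ⟨((n + 1).factorial : ℤ) - ∑ k ∈ range n, ((n + 1).choose k : ℤ) * z k, ?_⟩
    rw [Nat.factorial_succ]
    push_cast at h ⊢
    have h2 : ∑ k ∈ range n, ((n + 1).choose k : ℚ) * (z k : ℚ) =
        (n.factorial : ℚ) * ∑ k ∈ range n, ((n + 1).choose k : ℚ) * bernoulli' k := by
      rw [mul_sum]
      apply sum_congr rfl
      intro k hk
      rw [← hz k hk]
      ring
    rw [h2]
    have h3 : ((n : ℚ) + 1) * bernoulli' n = (n + 1) - ∑ k ∈ range n, ((n + 1).choose k : ℚ) * bernoulli' k := by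
      linarith
    calc ((n : ℚ) + 1) * (n.factorial : ℚ) * bernoulli' n =
        (n.factorial : ℚ) * (((n : ℚ) + 1) * bernoulli' n) := by ring
      _ = _ := by
          rw [h3]
          ring

lemma num_bound (n : ℕ) : (bernoulli n).num.natAbs ≤ 2 ^ (2 * (n + 1) ^ 2) := by
  obtain ⟨z, hz⟩ := b_int n
  have hb : |bernoulli n| = |bernoulli' n| := by
    unfold bernoulli
    rw [abs_mul, abs_pow, abs_neg, abs_one, one_pow, one_mul]
  have hz' : ∃ z' : ℤ, (((n + 1).factorial : ℕ) : ℚ) * bernoulli n = z' ∧ z'.natAbs = z.natAbs := by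
    refine ⟨(-1) ^ n * z, ?_, ?_⟩
    · unfold bernoulli
      push_cast
      rw [← hz]
      ring
    · rw [Int.natAbs_mul, Int.natAbs_pow]
      simp
  obtain ⟨z', hz1, hz2⟩ := hz'
  set b := bernoulli n with hbd
  have h1 : (((n + 1).factorial : ℕ) : ℤ) * b.num = z' * b.den := by
    have h2 : b = b.num / b.den := (Rat.num_div_den b).symm
    have h3 : (b.den : ℚ) ≠ 0 := by exact_mod_cast b.den_nz
    have h4 : (((n + 1).factorial : ℕ) : ℚ) * b.num = z' * b.den := by
      rw [← hz1]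
      nth_rewrite 2 [h2]
      field_simp
    exact_mod_cast h4
  have h2 : b.num ∣ z' := by
    have h3 : b.num ∣ z' * b.den := ⟨((n + 1).factorial : ℤ), by rw [← h1]; ring⟩
    have hcop : IsCoprime b.num (b.den : ℤ) := by
      rw [Int.isCoprime_iff_gcd_eq_one]
      have := b.reduced
      unfold Nat.Coprime at this
      simpa [Int.gcd] using this
    exact hcop.dvd_of_dvd_mul_right h3
  by_cases h0 : z' = 0
  · have : b.num = 0 := by
      rw [h0, zero_mul] at h1
      have h5 : (((n + 1).factorial : ℕ) : ℤ) ≠ 0 := by exact_mod_cast (Nat.factorial_ne_zero _)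
      exact (mul_eq_zero.1 h1).resolve_left h5
    rw [this]
    simp
  · have h3 : b.num.natAbs ≤ z'.natAbs := Nat.le_of_dvd (Int.natAbs_pos.2 h0) (Int.natAbs_dvd_natAbs.2 h2)
    have h4 : ((z'.natAbs : ℕ) : ℚ) ≤ 2 ^ (2 * (n + 1) ^ 2) := by
      have e1 : ((z'.natAbs : ℕ) : ℚ) = |(((n + 1).factorial : ℕ) : ℚ) * b| := by
        rw [hz1, Nat.cast_natAbs, Int.cast_abs]
      rw [e1, abs_mul, hb, abs_of_nonneg (show (0 : ℚ) ≤ (((n + 1).factorial : ℕ) : ℚ) by positivity)]
      have h5 : (((n + 1).factorial : ℕ) : ℚ) ≤ 2 ^ ((n + 1) ^ 2) := by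
        have h6 : (n + 1).factorial ≤ (n + 1) ^ (n + 1) := Nat.factorial_le_pow _
        have h7 : (n + 1) ^ (n + 1) ≤ (2 ^ (n + 1)) ^ (n + 1) := Nat.pow_le_pow_left (Nat.lt_two_pow_self).le _
        have h8 : (2 ^ (n + 1)) ^ (n + 1) = 2 ^ ((n + 1) ^ 2) := by rw [← pow_mul, sq]
        exact_mod_cast (h6.trans h7).trans h8.le
      calc (((n + 1).factorial : ℕ) : ℚ) * |bernoulli' n| ≤ 2 ^ ((n + 1) ^ 2) * 2 ^ (n ^ 2) :=
            mul_le_mul h5 (b_bound n) (abs_nonneg _) (by positivity)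
        _ = 2 ^ ((n + 1) ^ 2 + n ^ 2) := by rw [pow_add]
        _ ≤ 2 ^ (2 * (n + 1) ^ 2) := pow_le_pow_right₀ (by norm_num) (by
            have : n ^ 2 ≤ (n + 1) ^ 2 := Nat.pow_le_pow_left (by omega) 2
            omega)
    have h5 : z'.natAbs ≤ 2 ^ (2 * (n + 1) ^ 2) := by exact_mod_cast h4
    exact h3.trans h5

/-- the numerators which are not zero -/
def wt (i : ℕ) : ℕ := if (bernoulli (2 * i)).num = 0 then 1 else (bernoulli (2 * i)).num.natAbs

lemma wt_ne (i : ℕ) : wt i ≠ 0 := by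
  unfold wt
  split_ifs with h
  · exact one_ne_zero
  · exact Int.natAbs_ne_zero.2 h

lemma wt_le (i : ℕ) : wt i ≤ 2 ^ (2 * (2 * i + 1) ^ 2) := by
  unfold wt
  split_ifs with h
  · exact Nat.one_le_two_pow
  · exact num_bound _

/-- their product -/
def WW (M : ℕ) : ℕ := ∏ i ∈ Icc 1 M, wt i

lemma WW_ne (M : ℕ) : WW M ≠ 0 := prod_ne_zero_iff.2 fun i _ => wt_ne i

lemma WW_le (M : ℕ) : WW M ≤ 2 ^ (2 * (2 * M + 1) ^ 2 * M) := by
  unfold WW
  calc ∏ i ∈ Icc 1 M, wt i ≤ ∏ i ∈ Icc 1 M, 2 ^ (2 * (2 * M + 1) ^ 2) := by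
        apply prod_le_prod' 
        intro i hi
        rw [mem_Icc] at hi
        refine (wt_le i).trans (Nat.pow_le_pow_right (by norm_num) ?_)
        exact Nat.mul_le_mul_left 2 (Nat.pow_le_pow_left (by omega) 2)
    _ = 2 ^ (2 * (2 * M + 1) ^ 2 * M) := by
        rw [prod_const, Nat.card_Icc, Nat.add_sub_cancel, ← pow_mul]

lemma card_pf (W : ℕ) (hW : W ≠ 0) (e : ℕ) (h : W ≤ 2 ^ e) : W.primeFactors.card ≤ e := by
  have h1 : 2 ^ W.primeFactors.card ≤ W := by
    calc 2 ^ W.primeFactors.card = ∏ _p ∈ W.primeFactors, 2 := by rw [prod_const]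
      _ ≤ ∏ p ∈ W.primeFactors, p := prod_le_prod' fun p hp => (Nat.prime_of_mem_primeFactors hp).two_le
      _ ≤ W := Nat.le_of_dvd (Nat.pos_of_ne_zero hW) (Nat.prod_primeFactors_dvd W)
  exact (Nat.pow_le_pow_iff_right (by norm_num)).1 (h1.trans h)

/-- the exceptional primes for the indices up to `M`, and `0` -/
def PP (M : ℕ) : Finset ℕ := insert 0 (WW M).primeFactors

lemma card_PP (M : ℕ) : (PP M).card ≤ 2 * (2 * M + 1) ^ 2 * M + 1 := by
  unfold PP
  exact (card_insert_le _ _).trans (Nat.add_le_add_right (card_pf _ (WW_ne M) _ (WW_le M)) 1)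

/-- `i` is a regular index of `p` -/
def Rg (p i : ℕ) : Prop := ¬ ((p : ℤ) ∣ (bernoulli (2 * i)).num)

lemma pattern (M p : ℕ) (hp : p.Prime) : ∃ p' ∈ PP M, ∀ i, 1 ≤ i → i ≤ M → (Rg p i ↔ Rg p' i) := by
  by_cases h : p ∈ (WW M).primeFactors
  · exact ⟨p, mem_insert_of_mem h, fun _ _ _ => Iff.rfl⟩
  · refine ⟨0, mem_insert_self _ _, ?_⟩
    intro i hi1 hi2
    unfold Rg
    rw [not_iff_not, Nat.cast_zero, zero_dvd_iff]
    constructor
    · intro hd
      by_contra hne
      apply h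
      rw [Nat.mem_primeFactors]
      refine ⟨hp, ?_, WW_ne M⟩
      have h1 : p ∣ wt i := by
        unfold wt
        rw [if_neg hne]
        exact Int.natCast_dvd.1 hd
      exact h1.trans (dvd_prod_of_mem _ (mem_Icc.2 ⟨hi1, hi2⟩))
    · intro h0
      rw [h0]
      exact dvd_zero _

end Pool.Agent.H563.RI
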