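import Pool.Agent.H563.RI.Scale

set_option autoImplicit false

/-!
# A thin set of indices for all primes
-/

namespace Pool.Agent.H563.RI

open Finset Pool.Agent.H563.T4

lemma blk_small (k L : ℕ) (hL : 0 < L) (r : ℕ → ℕ) (t : ℕ) :
    ((blk k L r).filter (fun v => v ≤ t)).card ≤ t / L + 1 := by
  classical
  have h1 : (blk k L r).filter (fun v => v ≤ t) ⊆ (range (t / L + 1)).image (fun s => s * L + r s) := by
    intro v hv
    rw [mem_filter] at hv
    obtain ⟨hv1, hv2⟩ := hv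
    unfold blk at hv1
    rw [mem_image] at hv1 ⊢
    obtain ⟨s, -, hs⟩ := hv1
    refine ⟨s, ?_, hs⟩
    rw [mem_range, Nat.lt_succ_iff, Nat.le_div_iff_mul_le hL]
    omega
  calc _ ≤ ((range (t / L + 1)).image (fun s => s * L + r s)).card := card_le_card h1
    _ ≤ (range (t / L + 1)).card := card_image_le
    _ = t / L + 1 := card_range _

lemma sum_two (a : ℝ) (K : ℕ) :
    ∑ i ∈ range K, (a + i) / 2 ^ i = 2 * a + 2 - (2 * a + 2 * K + 2) / 2 ^ K := by
  induction K with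
  | zero => simp
  | succ K ih =>
    rw [sum_range_succ, ih, pow_succ]
    push_cast
    field_simp
    ring

lemma sum_eight (J : ℕ) : ∑ j ∈ range (J + 1), (8 : ℝ) ^ j ≤ 2 * 8 ^ J := by
  induction J with
  | zero => simp
  | succ J ih =>
    rw [sum_range_succ]
    have : (8 : ℝ) ^ (J + 1) = 8 * 8 ^ J := by ring
    have h0 : (0 : ℝ) < 8 ^ J := by positivity
    rw [this] at *
    linarith

lemma sqrt_add (n i : ℕ) : Nat.sqrt (n + i) ≤ Nat.sqrt n + i := by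
  have h1 : Nat.sqrt (n + i) < Nat.sqrt n + i + 1 := by
    rw [Nat.sqrt_lt']
    have h2 := Nat.lt_succ_sqrt n
    have h3 : (Nat.sqrt n + 1) * (Nat.sqrt n + 1) + i ≤ (Nat.sqrt n + i + 1) ^ 2 := by
      nlinarith [Nat.zero_le (Nat.sqrt n * i), Nat.zero_le (i * i)]
    have h4 : n < (Nat.sqrt n + 1) * (Nat.sqrt n + 1) := h2
    omega
  omega

lemma L_lower (j : ℕ) (hj : 10 ≤ j) : 2 ^ j ≤ 128 * (Nat.sqrt j + 1) * LJ j := by
  have h0 := LJ_pos j hj
  have hb : 0 < 64 * (Nat.sqrt j + 1) := by positivity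
  have h1 := Nat.lt_mul_div_succ (2 ^ j) hb
  have e : 2 ^ j / (64 * (Nat.sqrt j + 1)) = LJ j := rfl
  rw [e] at h1
  nlinarith

lemma pow_big2 (j : ℕ) (hj : 21 ≤ j) : 128 * (j + 1) * j ≤ 2 ^ j := by
  induction j, hj using Nat.le_induction with
  | base => norm_num
  | succ n hn ih =>
    rw [pow_succ]
    nlinarith

lemma j_lt (j t : ℕ) (hj : 10 ≤ j) (h : LJ j ≤ t) : j < t + 21 := by
  by_contra hcon
  have h1 : t + 21 ≤ j := by omega
  have h2 := L_lower j hj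
  have h3 := pow_big2 j (by omega)
  have h4 := Nat.sqrt_le_self j
  have h5 : 128 * (Nat.sqrt j + 1) * LJ j ≤ 128 * (j + 1) * t := by gcongr
  have h6 : 128 * (j + 1) * t < 128 * (j + 1) * j := by
    apply Nat.mul_lt_mul_of_pos_left (by omega) (by positivity)
  omega

theorem count (r1 r2 : ℕ → ℕ → ℕ) (t : ℕ) (ht : 2 ≤ t) :
    ((({v | v < 16 ^ 10 ∨ ∃ j, 10 ≤ j ∧ LJ j ≤ v ∧ (v ∈ blk (KJ j) (LJ j) (r1 j) ∨
      v ∈ blk (KJ j) (LJ j) (r2 j))} : Set ℕ) ∩ Set.Icc 1 t).ncard : ℝ) ≤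
      2 ^ 43 * (t : ℝ) ^ (3 / 4 : ℝ) * √(Real.log t) := by
  classical
  have htr : (2 : ℝ) ≤ t := by exact_mod_cast ht
  have ht0 : (0 : ℝ) < t := by linarith
  set J := Nat.log 16 t with hJ
  have hJ1 : 16 ^ J ≤ t := Nat.pow_log_le_self 16 (by omega)
  have hJ2 : t < 16 ^ (J + 1) := Nat.lt_pow_succ_log_self (by norm_num) t
  set K := t + 21 with hK
  set U : ℕ → Finset ℕ := fun j => (blk (KJ j) (LJ j) (r1 j)).filter (fun v => 10 ≤ j ∧ LJ j ≤ v ∧ v ≤ t) ∪
    (blk (KJ j) (LJ j) (r2 j)).filter (fun v => 10 ≤ j ∧ LJ j ≤ v ∧ v ≤ t) with hU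
  set W : Finset ℕ := range (16 ^ 10) ∪ (range ((J + 1) + K)).biUnion U with hW
  have hsub : (({v | v < 16 ^ 10 ∨ ∃ j, 10 ≤ j ∧ LJ j ≤ v ∧ (v ∈ blk (KJ j) (LJ j) (r1 j) ∨
      v ∈ blk (KJ j) (LJ j) (r2 j))} : Set ℕ) ∩ Set.Icc 1 t) ⊆ (W : Set ℕ) := by
    rintro v ⟨hv | ⟨j, hj, hL, hv⟩, -, hvt⟩
    · rw [mem_coe, hW, mem_union]
      exact Or.inl (mem_range.2 hv)
    · rw [mem_coe, hW, mem_union, mem_biUnion]
      right
      refine ⟨j, mem_range.2 ?_, ?_⟩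
      · have := j_lt j t hj (hL.trans hvt)
        omega
      · rw [hU]
        simp only [mem_union, mem_filter]
        rcases hv with hv | hv
        · exact Or.inl ⟨hv, hj, hL, hvt⟩
        · exact Or.inr ⟨hv, hj, hL, hvt⟩
  have h1 : ((({v | v < 16 ^ 10 ∨ ∃ j, 10 ≤ j ∧ LJ j ≤ v ∧ (v ∈ blk (KJ j) (LJ j) (r1 j) ∨
      v ∈ blk (KJ j) (LJ j) (r2 j))} : Set ℕ) ∩ Set.Icc 1 t).ncard : ℝ) ≤ (W.card : ℝ) := by
    have := Set.ncard_le_ncard hsub (W.finite_toSet)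
    rw [Set.ncard_coe_finset] at this
    exact_mod_cast this
  -- one block set
  have hlow : ∀ j r, (((blk (KJ j) (LJ j) r).filter (fun v => 10 ≤ j ∧ LJ j ≤ v ∧ v ≤ t)).card : ℝ) ≤
      2049 * ((8 : ℝ) ^ j * ((Nat.sqrt j : ℝ) + 1)) := by
    intro j r
    by_cases hj : 10 ≤ j
    · have hL0 := LJ_pos j hj
      have hLr : (0 : ℝ) < LJ j := by exact_mod_cast hL0
      have g1 : ((blk (KJ j) (LJ j) r).filter (fun v => 10 ≤ j ∧ LJ j ≤ v ∧ v ≤ t)).card ≤ KJ j :=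
        (card_le_card (filter_subset _ _)).trans (card_blk _ _ _)
      have g2 : (KJ j : ℝ) ≤ (16 : ℝ) ^ (j + 1) / LJ j + 1 := by
        unfold KJ
        push_cast
        have : (((16 ^ (j + 1) / LJ j : ℕ)) : ℝ) ≤ ((16 ^ (j + 1) : ℕ) : ℝ) / (LJ j : ℝ) := Nat.cast_div_le
        push_cast at this
        linarith
      have g3 : (16 : ℝ) ^ (j + 1) / LJ j ≤ 2048 * ((8 : ℝ) ^ j * ((Nat.sqrt j : ℝ) + 1)) := by
        rw [div_le_iff₀ hLr]
        have g4 : (2 : ℝ) ^ j ≤ 128 * ((Nat.sqrt j : ℝ) + 1) * LJ j := by exact_mod_cast L_lower j hj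
        have e1 : (16 : ℝ) ^ (j + 1) = 16 * (8 ^ j * 2 ^ j) := by
          rw [← mul_pow]
          norm_num
          ring
        rw [e1]
        have g5 : (0 : ℝ) < 8 ^ j := by positivity
        nlinarith
      have g6 : (1 : ℝ) ≤ (8 : ℝ) ^ j * ((Nat.sqrt j : ℝ) + 1) := by
        have g7 : (1 : ℝ) ≤ (8 : ℝ) ^ j := one_le_pow₀ (by norm_num)
        have g8 : (0 : ℝ) ≤ (Nat.sqrt j : ℝ) := by positivity
        nlinarith
      have g1' : (((blk (KJ j) (LJ j) r).filter (fun v => 10 ≤ j ∧ LJ j ≤ v ∧ v ≤ t)).card : ℝ) ≤ KJ j := by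
        exact_mod_cast g1
      linarith
    · have : (blk (KJ j) (LJ j) r).filter (fun v => 10 ≤ j ∧ LJ j ≤ v ∧ v ≤ t) = ∅ := by
        rw [filter_eq_empty_iff]
        rintro v - ⟨h, -⟩
        exact hj h
      rw [this]
      simp only [card_empty, Nat.cast_zero]
      positivity
  have hhigh : ∀ j r, (((blk (KJ j) (LJ j) r).filter (fun v => 10 ≤ j ∧ LJ j ≤ v ∧ v ≤ t)).card : ℝ) ≤
      256 * t * (((Nat.sqrt j : ℝ) + 1) / 2 ^ j) := by
    intro j r
    by_cases hj : 10 ≤ j ∧ LJ j ≤ t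
    · have hL0 := LJ_pos j hj.1
      have hLr : (0 : ℝ) < LJ j := by exact_mod_cast hL0
      have g1 : ((blk (KJ j) (LJ j) r).filter (fun v => 10 ≤ j ∧ LJ j ≤ v ∧ v ≤ t)).card ≤ t / LJ j + 1 := by
        refine le_trans (card_le_card ?_) (blk_small (KJ j) (LJ j) hL0 r t)
        intro v hv
        rw [mem_filter] at hv ⊢
        exact ⟨hv.1, hv.2.2.2⟩
      have g1' : (((blk (KJ j) (LJ j) r).filter (fun v => 10 ≤ j ∧ LJ j ≤ v ∧ v ≤ t)).card : ℝ) ≤
          ((t / LJ j : ℕ) : ℝ) + 1 := by exact_mod_cast g1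
      have g2 : ((t / LJ j : ℕ) : ℝ) ≤ (t : ℝ) / LJ j := Nat.cast_div_le
      have g3 : (1 : ℝ) ≤ (t : ℝ) / LJ j := by
        rw [le_div_iff₀ hLr, one_mul]
        exact_mod_cast hj.2
      have g4 : (2 : ℝ) ^ j ≤ 128 * ((Nat.sqrt j : ℝ) + 1) * LJ j := by exact_mod_cast L_lower j hj.1
      have g5 : (t : ℝ) / LJ j ≤ 128 * t * (((Nat.sqrt j : ℝ) + 1) / 2 ^ j) := by
        rw [div_le_iff₀ hLr]
        have g6 : (0 : ℝ) < 2 ^ j := by positivity
        have e1 : 128 * (t : ℝ) * (((Nat.sqrt j : ℝ) + 1) / 2 ^ j) * LJ j =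
            t * ((128 * ((Nat.sqrt j : ℝ) + 1) * LJ j) / 2 ^ j) := by
          field_simp
        rw [e1]
        have g7 : 1 ≤ (128 * ((Nat.sqrt j : ℝ) + 1) * LJ j) / 2 ^ j := by
          rw [le_div_iff₀ g6, one_mul]
          exact g4
        nlinarith
      linarith
    · have : (blk (KJ j) (LJ j) r).filter (fun v => 10 ≤ j ∧ LJ j ≤ v ∧ v ≤ t) = ∅ := by
        rw [filter_eq_empty_iff]
        rintro v - ⟨h1, h2, h3⟩
        exact hj ⟨h1, h2.trans h3⟩
      rw [this]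
      simp only [card_empty, Nat.cast_zero]
      positivity
  have hUc : ∀ j, ((U j).card : ℝ) ≤
      (((blk (KJ j) (LJ j) (r1 j)).filter (fun v => 10 ≤ j ∧ LJ j ≤ v ∧ v ≤ t)).card : ℝ) +
      (((blk (KJ j) (LJ j) (r2 j)).filter (fun v => 10 ≤ j ∧ LJ j ≤ v ∧ v ≤ t)).card : ℝ) := by
    intro j
    rw [hU]
    exact_mod_cast card_union_le _ _
  have hsq0 : (0 : ℝ) ≤ (Nat.sqrt J : ℝ) := by positivity
  have h2 : (W.card : ℝ) ≤ (16 : ℝ) ^ 10 + (2 * 2049 * (2 * 8 ^ J * ((Nat.sqrt J : ℝ) + 1)) +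
      512 * t * ((2 * (Nat.sqrt J : ℝ) + 6) / 2 ^ (J + 1))) := by
    have g1 : W.card ≤ 16 ^ 10 + ∑ j ∈ range ((J + 1) + K), (U j).card := by
      rw [hW]
      refine (card_union_le _ _).trans (Nat.add_le_add ?_ card_biUnion_le)
      rw [card_range]
    have g1' : (W.card : ℝ) ≤ (16 : ℝ) ^ 10 + ∑ j ∈ range ((J + 1) + K), ((U j).card : ℝ) := by
      exact_mod_cast g1
    refine g1'.trans (add_le_add le_rfl ?_)
    rw [sum_range_add]
    refine add_le_add ?_ ?_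
    · calc ∑ j ∈ range (J + 1), ((U j).card : ℝ) ≤
          ∑ j ∈ range (J + 1), 2 * 2049 * ((Nat.sqrt J : ℝ) + 1) * (8 : ℝ) ^ j := by
            apply sum_le_sum
            intro j hj
            rw [mem_range] at hj
            have a1 := hUc j
            have a2 := hlow j (r1 j)
            have a3 := hlow j (r2 j)
            have a4 : (Nat.sqrt j : ℝ) ≤ (Nat.sqrt J : ℝ) := by
              exact_mod_cast Nat.sqrt_le_sqrt (show j ≤ J by omega)
            have a5 : (0 : ℝ) < 8 ^ j := by positivity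
            nlinarith
        _ = 2 * 2049 * ((Nat.sqrt J : ℝ) + 1) * ∑ j ∈ range (J + 1), (8 : ℝ) ^ j := by rw [mul_sum]
        _ ≤ 2 * 2049 * ((Nat.sqrt J : ℝ) + 1) * (2 * 8 ^ J) := by
            have := sum_eight J
            gcongr
        _ = _ := by ring
    · calc ∑ i ∈ range K, ((U (J + 1 + i)).card : ℝ) ≤
          ∑ i ∈ range K, 512 * t / 2 ^ (J + 1) * ((((Nat.sqrt J : ℝ) + 2) + i) / 2 ^ i) := by
            apply sum_le_sum
            intro i _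
            have a1 := hUc (J + 1 + i)
            have a2 := hhigh (J + 1 + i) (r1 (J + 1 + i))
            have a3 := hhigh (J + 1 + i) (r2 (J + 1 + i))
            have a4 : (Nat.sqrt (J + 1 + i) : ℝ) ≤ (Nat.sqrt J : ℝ) + 1 + i := by
              have b1 := sqrt_add J (1 + i)
              rw [← add_assoc] at b1
              have b2 : Nat.sqrt (J + 1 + i) ≤ Nat.sqrt J + 1 + i := by omega
              exact_mod_cast b2
            have a5 : (0 : ℝ) < 2 ^ (J + 1 + i) := by positivity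
            have a6 : ((Nat.sqrt (J + 1 + i) : ℝ) + 1) / 2 ^ (J + 1 + i) ≤
                ((((Nat.sqrt J : ℝ) + 2) + i)) / 2 ^ (J + 1 + i) :=
              div_le_div_of_nonneg_right (by linarith) a5.le
            have e1 : 512 * (t : ℝ) / 2 ^ (J + 1) * ((((Nat.sqrt J : ℝ) + 2) + i) / 2 ^ i) =
                512 * t * (((((Nat.sqrt J : ℝ) + 2) + i)) / 2 ^ (J + 1 + i)) := by
              rw [pow_add 2 (J + 1) i]
              field_simp
            rw [e1]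
            have a7 := mul_le_mul_of_nonneg_left a6 (show (0 : ℝ) ≤ 256 * t by positivity)
            linarith
        _ = 512 * t / 2 ^ (J + 1) * ∑ i ∈ range K, ((((Nat.sqrt J : ℝ) + 2) + i) / 2 ^ i) := by rw [mul_sum]
        _ ≤ 512 * t / 2 ^ (J + 1) * (2 * ((Nat.sqrt J : ℝ) + 2) + 2) := by
            have b1 := sum_two ((Nat.sqrt J : ℝ) + 2) K
            have b2 : (0 : ℝ) ≤ (2 * ((Nat.sqrt J : ℝ) + 2) + 2 * K + 2) / 2 ^ K := by positivity
            gcongr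
            linarith
        _ = _ := by
            field_simp
            ring
  have h8 : (8 : ℝ) ^ J ≤ (t : ℝ) ^ (3 / 4 : ℝ) := by
    have e1 : (8 : ℝ) ^ J = ((16 : ℝ) ^ J) ^ (3 / 4 : ℝ) := by
      rw [← Real.rpow_natCast 16 J, ← Real.rpow_natCast 8 J, show (8 : ℝ) = 16 ^ (3 / 4 : ℝ) by
        rw [show (16 : ℝ) = 2 ^ (4 : ℝ) by norm_num, ← Real.rpow_mul (by norm_num)]
        norm_num]
      rw [← Real.rpow_mul (by norm_num), ← Real.rpow_mul (by norm_num)]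
      congr 1
      ring
    rw [e1]
    apply Real.rpow_le_rpow (by positivity) _ (by norm_num)
    exact_mod_cast hJ1
  have h9 : (t : ℝ) ≤ (t : ℝ) ^ (3 / 4 : ℝ) * 2 ^ (J + 1) := by
    have e1 : (2 : ℝ) ^ (J + 1) = ((16 : ℝ) ^ (J + 1)) ^ (1 / 4 : ℝ) := by
      rw [← Real.rpow_natCast 16 (J + 1), ← Real.rpow_natCast 2 (J + 1), show (2 : ℝ) = 16 ^ (1 / 4 : ℝ) by
        rw [show (16 : ℝ) = 2 ^ (4 : ℝ) by norm_num, ← Real.rpow_mul (by norm_num)]
        norm_num]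
      rw [← Real.rpow_mul (by norm_num), ← Real.rpow_mul (by norm_num)]
      congr 1
      ring
    have e2 : (t : ℝ) = (t : ℝ) ^ (3 / 4 : ℝ) * (t : ℝ) ^ (1 / 4 : ℝ) := by
      rw [← Real.rpow_add ht0]
      norm_num
    have e3 : (t : ℝ) ^ (1 / 4 : ℝ) ≤ 2 ^ (J + 1) := by
      rw [e1]
      apply Real.rpow_le_rpow ht0.le _ (by norm_num)
      exact_mod_cast hJ2.le
    nth_rewrite 1 [e2]
    gcongr
  set X : ℝ := (t : ℝ) ^ (3 / 4 : ℝ) with hX
  have hX1 : 1 ≤ X := Real.one_le_rpow (by linarith) (by norm_num)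
  have h10 : 512 * (t : ℝ) * ((2 * (Nat.sqrt J : ℝ) + 6) / 2 ^ (J + 1)) ≤
      512 * X * (2 * (Nat.sqrt J : ℝ) + 6) := by
    have a1 : (0 : ℝ) < 2 ^ (J + 1) := by positivity
    rw [mul_div_assoc', div_le_iff₀ a1]
    calc 512 * (t : ℝ) * (2 * (Nat.sqrt J : ℝ) + 6) ≤
        512 * (X * 2 ^ (J + 1)) * (2 * (Nat.sqrt J : ℝ) + 6) := by gcongr
      _ = _ := by ring
  have h11 : (Nat.sqrt J : ℝ) + 1 ≤ 3 * √(Real.log t) := by
    have hlt : 0 ≤ Real.log t := Real.log_nonneg (by linarith)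
    have b1 : (J : ℝ) ≤ Real.log t := by
      have c1 : ((16 ^ J : ℕ) : ℝ) ≤ t := by exact_mod_cast hJ1
      have c2 := Real.log_le_log (by positivity) c1
      push_cast at c2
      rw [Real.log_pow] at c2
      have c3 : 1 ≤ Real.log 16 := by
        rw [show (16 : ℝ) = 2 ^ 4 by norm_num, Real.log_pow]
        have := Real.log_two_gt_d9
        push_cast
        linarith
      have c4 : (0 : ℝ) ≤ J := by positivity
      nlinarith
    have b2 : (Nat.sqrt J : ℝ) ≤ √(Real.log t) := by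
      apply Real.le_sqrt_of_sq_le
      refine le_trans ?_ b1
      have : Nat.sqrt J ^ 2 ≤ J := Nat.sqrt_le' J
      exact_mod_cast this
    have b3 : 1 ≤ 2 * √(Real.log t) := by
      have c1 : (1 / 2 : ℝ) ≤ √(Real.log t) := by
        apply Real.le_sqrt_of_sq_le
        have c2 := Real.log_two_gt_d9
        have c3 := Real.log_le_log (by norm_num) htr
        norm_num
        linarith
      linarith
    linarith
  set s : ℝ := (Nat.sqrt J : ℝ) + 1 with hs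
  have hs1 : 1 ≤ s := by
    rw [hs]
    linarith
  have h12 : (W.card : ℝ) ≤ (16 : ℝ) ^ 10 * (X * s) + (2 * 2049 * (2 * X * s) + 512 * X * (6 * s)) := by
    refine h2.trans (add_le_add ?_ (add_le_add ?_ ?_))
    · have : 1 ≤ X * s := by nlinarith
      nlinarith
    · have a1 : (8 : ℝ) ^ J * s ≤ X * s := by gcongr
      nlinarith
    · refine h10.trans ?_
      have a1 : 2 * (Nat.sqrt J : ℝ) + 6 ≤ 6 * s := by
        rw [hs]
        linarith
      gcongr
  have h13 : (W.card : ℝ) ≤ 2 ^ 41 * (X * s) := by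
    have : (0 : ℝ) ≤ X * s := by positivity
    nlinarith
  calc _ ≤ (W.card : ℝ) := h1
    _ ≤ 2 ^ 41 * (X * s) := h13
    _ ≤ 2 ^ 41 * (X * (3 * √(Real.log t))) := by gcongr
    _ ≤ 2 ^ 43 * X * √(Real.log t) := by
        have : (0 : ℝ) ≤ X * √(Real.log t) := by positivity
        nlinarith

/-- one thin set of indices for all primes -/
theorem main : ∃ A : Set ℕ,
    (∀ t : ℕ, 2 ≤ t → ((A ∩ Set.Icc 1 t).ncard : ℝ) ≤ 2 ^ 43 * (t : ℝ) ^ (3 / 4 : ℝ) * √(Real.log t)) ∧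
    ∀ p N : ℕ, p.Prime → 2 ≤ N → 2 * N + 3 ≤ p →
      ∃ T : Finset ℕ, Real.log N / 32 ≤ (T.card : ℝ) ∧ T.Nonempty ∧ ∀ i ∈ T, (0 < i ∧ i < N) ∧
        (i ∈ A ∧ N - i ∈ A) ∧ (Rg p i ∧ Rg p (N - i)) := by
  classical
  have hex := fun j (hj : 10 ≤ j) => scale2 j hj
  choose! r1 r2 hr using hex
  refine ⟨{v | v < 16 ^ 10 ∨ ∃ j, 10 ≤ j ∧ LJ j ≤ v ∧ (v ∈ blk (KJ j) (LJ j) (r1 j) ∨
      v ∈ blk (KJ j) (LJ j) (r2 j))}, fun t ht => count r1 r2 t ht, ?_⟩
  intro p N hp hN2 hNp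
  have hlog16 : Real.log 16 ≤ 3 := by
    rw [show (16 : ℝ) = 2 ^ 4 by norm_num, Real.log_pow]
    have := Real.log_two_lt_d9
    push_cast
    linarith
  have hNpos : (0 : ℝ) < N := by exact_mod_cast (show 0 < N by omega)
  by_cases hN : N < 16 ^ 10
  · obtain ⟨-, h1⟩ := base_count p N hp hN2 hNp
    refine ⟨(Ioo 0 N).filter (fun i => Rg p i ∧ Rg p (N - i)), ?_, card_pos.1 (by omega), ?_⟩
    · have h2 : (1 : ℝ) ≤ (((Ioo 0 N).filter (fun i => Rg p i ∧ Rg p (N - i))).card : ℝ) := by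
        exact_mod_cast h1
      have h3 : Real.log N ≤ 30 := by
        have h4 : (N : ℝ) ≤ 16 ^ 10 := by exact_mod_cast hN.le
        have h5 := Real.log_le_log hNpos h4
        rw [Real.log_pow] at h5
        push_cast at h5
        linarith
      linarith
    · intro i hi
      rw [mem_filter, mem_Ioo] at hi
      refine ⟨hi.1, ⟨Or.inl (by omega), Or.inl (by omega)⟩, hi.2⟩
  · have hN' : 16 ^ 10 ≤ N := by omega
    set j := Nat.log 16 N with hj
    have hj10 : 10 ≤ j := Nat.le_log_of_pow_le (by norm_num) hN'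
    have h1 : 16 ^ j ≤ N := Nat.pow_log_le_self 16 (by omega)
    have h2 : N < 16 ^ (j + 1) := Nat.lt_pow_succ_log_self (by norm_num) N
    obtain ⟨-, -, h3⟩ := hr j hj10
    obtain ⟨T, hT1, hT2⟩ := h3 p N hp h1 h2 hNp
    have hjr : (0 : ℝ) ≤ j := by positivity
    refine ⟨T, ?_, ?_, ?_⟩
    · have h4 : (N : ℝ) ≤ 16 ^ (j + 1) := by exact_mod_cast h2.le
      have h5 := Real.log_le_log hNpos h4
      rw [Real.log_pow] at h5
      push_cast at h5
      nlinarith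
    · rw [← card_pos]
      by_contra hcon
      have : T.card = 0 := by omega
      rw [this] at hT1
      push_cast at hT1
      linarith
    · intro i hi
      obtain ⟨a1, a2, ⟨a3, a4⟩, a5, a6⟩ := hT2 i hi
      exact ⟨a1, ⟨Or.inr ⟨j, hj10, a3, Or.inr a5⟩, Or.inr ⟨j, hj10, a4, Or.inl a6⟩⟩, a2⟩

end Pool.Agent.H563.RI
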