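import Pool.Agent.H563.RI.Bern
import Pool.Agent.H563.T4.Comb
import Pool.Graph.R_seed8.Results.MP_a3a416_nt.BalancedRegularSums

set_option autoImplicit false

/-!
# A thin set of indices for all primes, at one scale
-/

namespace Pool.Agent.H563.RI

open Finset Pool.Agent.H563.T4

/-- the length of the blocks -/
def LJ (j : ℕ) : ℕ := 2 ^ j / (64 * (Nat.sqrt j + 1))

/-- the number of blocks -/
def KJ (j : ℕ) : ℕ := 16 ^ (j + 1) / LJ j + 1

lemma pow_big (j : ℕ) (hj : 10 ≤ j) : 64 * (j + 1) ≤ 2 ^ j := by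
  induction j, hj using Nat.le_induction with
  | base => norm_num
  | succ n hn ih =>
    rw [pow_succ]
    omega

lemma LJ_pos (j : ℕ) (hj : 10 ≤ j) : 0 < LJ j := by
  unfold LJ
  apply Nat.div_pos _ (by positivity)
  refine le_trans ?_ (pow_big j hj)
  have := Nat.sqrt_le_self j
  omega

lemma LJ_sq (j : ℕ) : 4096 * (j + 1) * LJ j ^ 2 ≤ 4 ^ j := by
  have h1 : LJ j * (64 * (Nat.sqrt j + 1)) ≤ 2 ^ j := Nat.div_mul_le_self _ _
  have h2 : j + 1 ≤ (Nat.sqrt j + 1) ^ 2 := by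
    have := Nat.lt_succ_sqrt j
    rw [sq]
    exact this
  calc 4096 * (j + 1) * LJ j ^ 2 ≤ 4096 * (Nat.sqrt j + 1) ^ 2 * LJ j ^ 2 := by gcongr
    _ = (LJ j * (64 * (Nat.sqrt j + 1))) ^ 2 := by ring
    _ ≤ (2 ^ j) ^ 2 := Nat.pow_le_pow_left h1 2
    _ = 4 ^ j := by
        rw [← pow_mul, mul_comm j 2, pow_mul]
        norm_num

lemma LJ_le (j : ℕ) : 64 * LJ j ≤ 2 ^ j := by
  have h1 : LJ j * (64 * (Nat.sqrt j + 1)) ≤ 2 ^ j := Nat.div_mul_le_self _ _
  nlinarith [Nat.zero_le (LJ j * Nat.sqrt j)]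

lemma KL (j : ℕ) (hj : 10 ≤ j) : 16 ^ (j + 1) ≤ KJ j * LJ j := by
  unfold KJ
  have := Nat.lt_mul_div_succ (16 ^ (j + 1)) (LJ_pos j hj)
  rw [mul_comm]
  exact this.le

open Classical in
/-- the `i` for which `i` and `N - i` are regular indices, and not less than `L` -/
noncomputable def GG (L N p : ℕ) : Finset ℕ :=
  (Ioo 0 N).filter (fun i => (Rg p i ∧ Rg p (N - i)) ∧ L ≤ i ∧ L ≤ N - i)

lemma mem_GG (L N p i : ℕ) : i ∈ GG L N p ↔ (0 < i ∧ i < N) ∧ (Rg p i ∧ Rg p (N - i)) ∧ L ≤ i ∧ L ≤ N - i := by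
  classical
  unfold GG
  rw [mem_filter, mem_Ioo]

lemma GG_congr (L N p p' M : ℕ) (hN : N ≤ M) (h : ∀ i, 1 ≤ i → i ≤ M → (Rg p i ↔ Rg p' i)) :
    GG L N p = GG L N p' := by
  ext i
  rw [mem_GG, mem_GG]
  constructor
  · rintro ⟨⟨h1, h2⟩, ⟨h3, h4⟩, h5⟩
    exact ⟨⟨h1, h2⟩, ⟨(h i h1 (by omega)).1 h3, (h (N - i) (by omega) (by omega)).1 h4⟩, h5⟩
  · rintro ⟨⟨h1, h2⟩, ⟨h3, h4⟩, h5⟩
    exact ⟨⟨h1, h2⟩, ⟨(h i h1 (by omega)).2 h3, (h (N - i) (by omega) (by omega)).2 h4⟩, h5⟩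

open Classical in
lemma base_count (p N : ℕ) (hp : p.Prime) (h2 : 2 ≤ N) (hN : 2 * N + 3 ≤ p) :
    N ≤ 6 * ((Ioo 0 N).filter (fun i => Rg p i ∧ Rg p (N - i))).card ^ 2 ∧
      1 ≤ ((Ioo 0 N).filter (fun i => Rg p i ∧ Rg p (N - i))).card := by
  have h := Pool.Agent.Results.MP_a3a416_nt.BalancedRegularSums.result p hp N h2 hN 0 (by omega) _ rfl
  have e : ((Finset.Ioo 0 (N - 0)).filter (fun i : ℕ => ¬ ((p : ℤ) ∣ (bernoulli (2 * i)).num) ∧
      ¬ ((p : ℤ) ∣ (bernoulli (2 * (N - i))).num))).card =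
      ((Ioo 0 N).filter (fun i => Rg p i ∧ Rg p (N - i))).card := by
    rw [Nat.sub_zero]
    apply congrArg Finset.card
    ext i
    simp only [mem_filter, Rg]
  rw [e] at h
  set r := ((Ioo 0 N).filter (fun i => Rg p i ∧ Rg p (N - i))).card with hr
  have h0 : 1 ≤ r := by
    by_contra hcon
    have : r = 0 := by omega
    rw [this] at h
    omega
  refine ⟨?_, h0⟩
  rw [Nat.sub_zero] at h
  nlinarith

lemma good_count (j N p : ℕ) (hj : 10 ≤ j) (hp : p.Prime) (h1 : 16 ^ j ≤ N) (hN : 2 * N + 3 ≤ p) :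
    (4 : ℝ) ^ j / 4 ≤ ((GG (LJ j) N p).card : ℝ) := by
  classical
  have h16 : 16 ≤ 16 ^ j := by
    calc 16 = 16 ^ 1 := by norm_num
      _ ≤ 16 ^ j := Nat.pow_le_pow_right (by norm_num) (by omega)
  obtain ⟨hb, -⟩ := base_count p N hp (by omega) hN
  set R0 := (Ioo 0 N).filter (fun i => Rg p i ∧ Rg p (N - i)) with hR0
  have h3 : 4 ^ j ≤ 3 * R0.card := by
    have h4 : (4 ^ j) ^ 2 ≤ (3 * R0.card) ^ 2 := by
      calc (4 ^ j) ^ 2 = 16 ^ j := by rw [← pow_mul, mul_comm j 2, pow_mul]; norm_num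
        _ ≤ N := h1
        _ ≤ 6 * R0.card ^ 2 := hb
        _ ≤ 9 * R0.card ^ 2 := Nat.mul_le_mul_right _ (by norm_num)
        _ = (3 * R0.card) ^ 2 := by ring
    exact (Nat.pow_le_pow_iff_left two_ne_zero).1 h4
  set L := LJ j with hL
  have hsub : R0 ⊆ (GG L N p ∪ range L) ∪ (range L).image (fun i => N - i) := by
    intro i hi
    rw [hR0, mem_filter, mem_Ioo] at hi
    rw [mem_union, mem_union]
    by_cases g1 : i < L
    · exact Or.inl (Or.inr (mem_range.2 g1))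
    by_cases g2 : N - i < L
    · refine Or.inr (mem_image.2 ⟨N - i, mem_range.2 g2, ?_⟩)
      omega
    · exact Or.inl (Or.inl ((mem_GG L N p i).2 ⟨hi.1, hi.2, by omega, by omega⟩))
  have h5 : R0.card ≤ (GG L N p).card + L + L := by
    refine (card_le_card hsub).trans ((card_union_le _ _).trans ?_)
    refine Nat.add_le_add ((card_union_le _ _).trans ?_) ?_
    · rw [card_range]
    · exact card_image_le.trans (card_range L).le
  have h6 : 64 * L ≤ 4 ^ j := (LJ_le j).trans (Nat.pow_le_pow_left (by norm_num) j)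
  have h3' : (4 : ℝ) ^ j ≤ 3 * (R0.card : ℝ) := by exact_mod_cast h3
  have h5' : (R0.card : ℝ) ≤ ((GG L N p).card : ℝ) + L + L := by exact_mod_cast h5
  have h6' : 64 * (L : ℝ) ≤ (4 : ℝ) ^ j := by exact_mod_cast h6
  linarith

theorem scale2 (j : ℕ) (hj : 10 ≤ j) : ∃ r1 r2 : ℕ → ℕ, (∀ t, r1 t < LJ j) ∧ (∀ t, r2 t < LJ j) ∧
    ∀ p N : ℕ, p.Prime → 16 ^ j ≤ N → N < 16 ^ (j + 1) → 2 * N + 3 ≤ p →
      ∃ T : Finset ℕ, (256 * ((j : ℝ) + 1) ≤ (T.card : ℝ)) ∧ ∀ i ∈ T, (0 < i ∧ i < N) ∧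
        (Rg p i ∧ Rg p (N - i)) ∧ (LJ j ≤ i ∧ LJ j ≤ N - i) ∧
          (i ∈ blk (KJ j) (LJ j) r2 ∧ N - i ∈ blk (KJ j) (LJ j) r1) := by
  classical
  set L := LJ j with hLd
  set k := KJ j with hkd
  set M := 16 ^ (j + 1) with hM
  have hL0 : 0 < L := LJ_pos j hj
  have hLr : (0 : ℝ) < L := by exact_mod_cast hL0
  have hL1 : (1 : ℝ) ≤ L := by exact_mod_cast hL0
  have hkL : M ≤ k * L := KL j hj
  set s : ℝ := (4 : ℝ) ^ j / 4 with hs
  have hs0 : 0 < s := by positivity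
  have hsq : 4096 * ((j : ℝ) + 1) * (L : ℝ) ^ 2 ≤ (4 : ℝ) ^ j := by exact_mod_cast LJ_sq j
  set I : Finset (ℕ × ℕ) := ((range M) ×ˢ (PP M)).filter (fun x => s ≤ ((GG L x.1 x.2).card : ℝ)) with hI
  have hIc : (I.card : ℝ) * Real.exp (-(64 * ((j : ℝ) + 1))) < 1 := by
    have h1 : I.card ≤ M * (2 * (2 * M + 1) ^ 2 * M + 1) := by
      calc I.card ≤ ((range M) ×ˢ (PP M)).card := card_le_card (filter_subset _ _)
        _ = M * (PP M).card := by rw [card_product, card_range]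
        _ ≤ _ := Nat.mul_le_mul_left _ (card_PP M)
    have hM1 : 1 ≤ M := Nat.one_le_pow _ _ (by norm_num)
    have h2 : M * (2 * (2 * M + 1) ^ 2 * M + 1) ≤ 19 * M ^ 4 := by
      have h3 : 2 * M + 1 ≤ 3 * M := by omega
      have h4 : (2 * M + 1) ^ 2 ≤ (3 * M) ^ 2 := Nat.pow_le_pow_left h3 2
      have h5 : 1 ≤ M ^ 3 := Nat.one_le_pow _ _ hM1
      calc M * (2 * (2 * M + 1) ^ 2 * M + 1) ≤ M * (2 * (3 * M) ^ 2 * M + M ^ 3) := by gcongr
        _ = 19 * M ^ 4 := by ring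
    have h3 : 19 * M ^ 4 < 2 ^ (64 * (j + 1)) := by
      have e1 : M ^ 4 = 2 ^ (16 * (j + 1)) := by
        rw [hM, ← pow_mul, show (16 : ℕ) = 2 ^ 4 by norm_num, ← pow_mul]
        congr 1
        ring
      rw [e1]
      have e2 : 2 ^ (64 * (j + 1)) = 2 ^ (48 * (j + 1)) * 2 ^ (16 * (j + 1)) := by
        rw [← pow_add]
        congr 1
        ring
      rw [e2]
      apply Nat.mul_lt_mul_of_pos_right _ (by positivity)
      calc 19 < 2 ^ 48 := by norm_num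
        _ ≤ 2 ^ (48 * (j + 1)) := Nat.pow_le_pow_right (by norm_num) (by omega)
    have h4 : (I.card : ℝ) < 2 ^ (64 * (j + 1)) := by exact_mod_cast lt_of_le_of_lt (h1.trans h2) h3
    have h5 : (2 : ℝ) ^ (64 * (j + 1)) ≤ Real.exp (64 * ((j : ℝ) + 1)) := by
      have e1 : Real.exp (64 * ((j : ℝ) + 1)) = Real.exp 1 ^ (64 * (j + 1)) := by
        rw [Real.exp_one_pow]
        push_cast
        ring_nf
      rw [e1]
      have := Real.exp_one_gt_d9
      exact pow_le_pow_left₀ (by norm_num) (by linarith) _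
    rw [Real.exp_neg, ← div_eq_mul_inv, div_lt_one (Real.exp_pos _)]
    linarith
  have hmul : ∀ x : ℝ, 64 * ((j : ℝ) + 1) ≤ x → (I.card : ℝ) * Real.exp (-x) < 1 := by
    intro x hx
    refine lt_of_le_of_lt ?_ hIc
    have := Real.exp_le_exp.2 (show -x ≤ -(64 * ((j : ℝ) + 1)) by linarith)
    gcongr
  have hone : ∀ (T : Finset ℕ) (v : ℕ), (0 : ℝ) ≤ ((T.filter (fun q => q = v)).card : ℝ) ∧
      ((T.filter (fun q => q = v)).card : ℝ) ≤ 1 := by
    intro T v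
    refine ⟨by positivity, ?_⟩
    have h1 : T.filter (fun q => q = v) ⊆ {v} := by
      intro q hq
      exact mem_singleton.2 (mem_filter.1 hq).2
    have h2 := card_le_card h1
    rw [card_singleton] at h2
    exact_mod_cast h2
  have hlt : ∀ x ∈ I, ∀ q ∈ GG L x.1 x.2, q < k * L := by
    intro x hx q hq
    rw [hI, mem_filter, mem_product, mem_range] at hx
    have := ((mem_GG _ _ _ _).1 hq).1.2
    omega
  -- step 1
  have N1 : 64 * ((j : ℝ) + 1) ≤ s / (8 * L * 1) := by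
    rw [le_div_iff₀ (by positivity), hs]
    have : (L : ℝ) ≤ (L : ℝ) ^ 2 := by nlinarith
    have hj0 : (0 : ℝ) ≤ (j : ℝ) + 1 := by positivity
    nlinarith
  obtain ⟨r1, hr1, g1, -⟩ := step I (∅ : Finset Unit) k L hL0
    (fun x v => (((GG L x.1 x.2).filter (fun q => q = v)).card : ℝ)) 1 one_pos
    (fun x _ v => hone _ v) s (by
      intro x hx
      rw [fib_all (GG L x.1 x.2) (fun q => q) (k * L) (hlt x hx)]
      rw [hI, mem_filter] at hx
      exact hx.2)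
    (fun _ _ => 0) 1 one_pos (by simp) 0 0 0 le_rfl (by simp) (by
      have := hmul _ N1
      simpa using this)
  set A1 := blk k L r1 with hA1
  have c1 : ∀ x ∈ I, s / (2 * L) ≤ (((GG L x.1 x.2).filter (fun q => q ∈ A1)).card : ℝ) := by
    intro x hx
    have := g1 x hx
    rw [fib_blk (GG L x.1 x.2) (fun q => q) k L r1 hr1] at this
    exact this
  have c2 : ∀ x ∈ I, s / (2 * L) ≤ (((GG L x.1 x.2).filter (fun q => x.1 - q ∈ A1)).card : ℝ) := by
    intro x hx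
    refine (c1 x hx).trans ?_
    have : ((GG L x.1 x.2).filter (fun q => q ∈ A1)).card ≤
        ((GG L x.1 x.2).filter (fun q => x.1 - q ∈ A1)).card := by
      apply Finset.card_le_card_of_injOn (fun q => x.1 - q)
      · intro q hq
        rw [mem_coe, mem_filter, mem_GG] at hq
        rw [mem_coe, mem_filter, mem_GG]
        obtain ⟨⟨⟨a1, a2⟩, ⟨a3, a4⟩, a5, a6⟩, a7⟩ := hq
        have e : x.1 - (x.1 - q) = q := by omega
        simp only [e]
        exact ⟨⟨⟨by omega, by omega⟩, ⟨a4, a3⟩, a6, a5⟩, a7⟩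
      · intro q hq q' hq' e
        rw [mem_coe, mem_filter, mem_GG] at hq hq'
        simp only at e
        omega
    exact_mod_cast this
  -- step 2
  have N2 : 64 * ((j : ℝ) + 1) ≤ s / (2 * L) / (8 * L * 1) := by
    rw [le_div_iff₀ (by positivity), le_div_iff₀ (by positivity), hs]
    nlinarith
  obtain ⟨r2, hr2, g2, -⟩ := step I (∅ : Finset Unit) k L hL0
    (fun x v => ((((GG L x.1 x.2).filter (fun q => x.1 - q ∈ A1)).filter (fun q => q = v)).card : ℝ)) 1 one_pos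
    (fun x _ v => hone _ v) (s / (2 * L)) (by
      intro x hx
      rw [fib_all ((GG L x.1 x.2).filter (fun q => x.1 - q ∈ A1)) (fun q => q) (k * L)
        (fun q hq => hlt x hx q (mem_filter.1 hq).1)]
      exact c2 x hx)
    (fun _ _ => 0) 1 one_pos (by simp) 0 0 0 le_rfl (by simp) (by
      have := hmul _ N2
      simpa using this)
  refine ⟨r1, r2, hr1, hr2, ?_⟩
  intro p N hp hN1 hN2 hNp
  obtain ⟨p', hp', hpat⟩ := pattern M p hp
  have hGG := GG_congr L N p p' M hN2.le hpat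
  have hx : (N, p') ∈ I := by
    rw [hI, mem_filter, mem_product, mem_range]
    refine ⟨⟨hN2, hp'⟩, ?_⟩
    simp only
    rw [← hGG]
    exact good_count j N p hj hp hN1 hNp
  have g3 := g2 (N, p') hx
  rw [fib_blk ((GG L N p').filter (fun q => N - q ∈ A1)) (fun q => q) k L r2 hr2, ← hGG] at g3
  refine ⟨((GG L N p).filter (fun q => N - q ∈ A1)).filter (fun q => q ∈ blk k L r2), ?_, ?_⟩
  · refine le_trans ?_ g3
    rw [le_div_iff₀ (by positivity), le_div_iff₀ (by positivity), hs]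
    nlinarith
  · intro i hi
    rw [mem_filter, mem_filter, mem_GG] at hi
    obtain ⟨⟨⟨a1, a2, a3⟩, a4⟩, a5⟩ := hi
    exact ⟨a1, a2, a3, a5, a4⟩

end Pool.Agent.H563.RI
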